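import Pool.Agent.Q41.RA.Pat

set_option autoImplicit false

/-!
# Even-regular partitions modulo 2 on all progressions (MP_a23355_nt)

Let `m_1, …, m_k` be even numbers of the form `2 ^ j m_0`, `j ≥ 1`, `m_0` odd, `2 ^ j < m_0`, pairwise
incongruent modulo 24. For every `M ≥ 1` there is a constant `C` such that every nonzero linear
combination modulo 2 of the `b_{m_j}(n + i)`, `i < K`, takes both values on the `n ≡ ρ (mod M)` in
every interval `[A, C (A + K)]`. In particular each `b_m` takes both parities, with multiplicative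
gaps at most `C`, on every progression.

Method. By the theorem on joint patterns of eta-quotients (starting file
`MP_a3366f_nt/EtaQuotients`) it is enough that `b_m` is not identically even on any progression. This
is proved as in the file `MP_72e75e_nt/NoCongruence`, where `m = 6`: the image of a vanishing relation
under the flipping automorphism has a unique term of smallest order if `2 ^ j < m_0`, and the
condition that its exponent is in the class which is projected to is `λ ^ 2 ≡ u` modulo a power
of 2 with `u ≡ 1 (mod 8)` if `j ≥ 1`.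
-/

namespace Pool.Agent.Results.MP_a23355_nt.AllProgressions

/-- the number of the partitions of `n` in which no part is divisible by `m` -/
def b (m n : ℕ) : ℕ :=
  ((Finset.univ : Finset (Nat.Partition n)).filter fun P => ∀ i ∈ P.parts, ¬ m ∣ i).card

theorem result (k : ℕ) (m : Fin k → ℕ)
    (hm : ∀ x, ∃ j m0 : ℕ, 1 ≤ j ∧ Odd m0 ∧ 2 ^ j < m0 ∧ m x = 2 ^ j * m0)
    (hsep : ∀ x y, x ≠ y → ¬ m x ≡ m y [MOD 24]) (M : ℕ) (hM : 0 < M) :
    ∃ C : ℕ, ∀ (K : ℕ) (c : Fin k → ℕ → ZMod 2) (ρ : ℕ), (∃ x, ∃ i < K, c x i ≠ 0) →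
      ∀ (κ : ZMod 2) (A : ℕ), ∃ n, A ≤ n ∧ n ≤ C * (A + K) ∧ n ≡ ρ [MOD M] ∧
        ∑ x, ∑ i ∈ Finset.range K, c x i * (b (m x) (n + i) : ZMod 2) = κ :=
  Pool.Agent.Q41.RA.patterns_b m hm hsep M hM

end Pool.Agent.Results.MP_a23355_nt.AllProgressions
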